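import Pool.Agent.H74.GKKEx

set_option autoImplicit false

namespace Pool.Agent.Results.MP_a5d893_al.NewtonFails

open Pool.Agent.H74.GKK

/-- A real GKK τ-matrix violating one of Newton's inequalities. The notions are those of
`Pool.Agent.H74.GKK`, applied to the real matrix viewed as a complex matrix. -/
theorem result :
    ∃ (n : ℕ) (A : Matrix (Fin n) (Fin n) ℝ) (j : ℕ),
      IsGKK (A.map Complex.ofReal) ∧ IsTau (A.map Complex.ofReal) ∧ 1 ≤ j ∧ j + 1 ≤ n ∧
      ∃ a b c : ℝ, cj (A.map Complex.ofReal) (j - 1) = (a : ℂ) ∧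
        cj (A.map Complex.ofReal) j = (b : ℂ) ∧ cj (A.map Complex.ofReal) (j + 1) = (c : ℂ) ∧
        b ^ 2 < a * c := by
  have e : (M4.map (Int.cast : ℤ → ℝ)).map Complex.ofReal = M4.map (Int.cast : ℤ → ℂ) := by
    ext i j; simp
  refine ⟨4, M4.map (Int.cast : ℤ → ℝ), 2, ?_, ?_, by norm_num, by norm_num, 365 / 2, 8050, 362750,
    ?_, ?_, ?_, by norm_num⟩ <;> rw [e]
  · exact ⟨M4_P, M4_WSS⟩
  · exact M4_tau
  · exact M4_c1
  · exact M4_c2
  · exact M4_c3

end Pool.Agent.Results.MP_a5d893_al.NewtonFails
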